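import Pool.Agent.Y203.HN.Main

/-! Phase transitions: weights `ψ + t b`, where `b` is a bump at a cycle which is isolated from all
other invariant probability measures. -/

set_option autoImplicit false

open MeasureTheory Filter Topology
open scoped ENNReal NNReal

namespace Pool.Agent.D0H35.Hen

open Pool.Agent.Helper179.KS Pool.Agent.Helper179.Eq Pool.Agent.Y203.HN

/-- Upper affinity of the entropy. -/
lemma ksEntropy_mix_le {X : Type*} [MeasurableSpace X] (μ₁ μ₂ : Measure X)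
    [IsProbabilityMeasure μ₁] [IsProbabilityMeasure μ₂] (s t : ℝ≥0) {T : X → X}
    (hT : Measurable T) (e₁ e₂ : ℝ) (h₁ : ksEntropy μ₁ T ≤ e₁) (h₂ : ksEntropy μ₂ T ≤ e₂) :
    ksEntropy (s • μ₁ + t • μ₂) T ≤ ((s * e₁ + t * e₂ : ℝ) : EReal) := by
  rw [ksEntropy_le_iff] at h₁ h₂ ⊢
  intro k P hP
  exact partitionEntropy_mix_le μ₁ μ₂ s t hT hP e₁ e₂ (h₁ k P hP) (h₂ k P hP)

variable {f : ℂ × ℂ → ℂ × ℂ} {m : ℕ} {p : ℂ × ℂ} {K U : Set (ℂ × ℂ)} {H : ℝ}

/-- Entropies are real numbers. -/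
lemma entropy_real (D : CycleData f m p K U H) {ν : Measure (ℂ × ℂ)}
    (hν : IsInvariantProb f ν) : ∃ h : ℝ, 0 ≤ h ∧ h ≤ H ∧ ksEntropy ν f = (h : EReal) := by
  have h1 := D.bound ν hν.1 hν.2
  have hp := hν.1
  have h2 : 0 ≤ ksEntropy ν f := ksEntropy_nonneg _ _
  have h3 : ksEntropy ν f = ((ksEntropy ν f).toReal : EReal) := by
    refine (EReal.coe_toReal ?_ ?_).symm
    · intro h; rw [h] at h1; simp at h1
    · intro h; rw [h] at h2; simp at h2
  refine ⟨(ksEntropy ν f).toReal, ?_, ?_, h3⟩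
  · rw [h3] at h2; exact_mod_cast h2
  · rw [h3] at h1; exact_mod_cast h1

/-- The real free energy. -/
noncomputable def fe (f : ℂ × ℂ → ℂ × ℂ) (ψ : ℂ × ℂ → ℝ) (ν : Measure (ℂ × ℂ)) : ℝ :=
  (ksEntropy ν f).toReal + ∫ z, ψ z ∂ν

lemma freeEnergy_eq (D : CycleData f m p K U H) {ν : Measure (ℂ × ℂ)}
    (hν : IsInvariantProb f ν) (ψ : ℂ × ℂ → ℝ) : freeEnergy f ψ ν = (fe f ψ ν : EReal) := by
  obtain ⟨h, _, _, h3⟩ := entropy_real D hν
  unfold freeEnergy fe
  rw [h3, EReal.toReal_coe, EReal.coe_add]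

lemma bound_on (D : CycleData f m p K U H) {ψ : ℂ × ℂ → ℝ} (hψ : Continuous ψ) :
    ∃ C : ℝ, ∀ ν, IsInvariantProb f ν → Integrable ψ ν ∧ |∫ z, ψ z ∂ν| ≤ C := by
  obtain ⟨C, hC⟩ := (D.cpt.bddAbove_image hψ.norm.continuousOn)
  refine ⟨C, ?_⟩
  intro ν hν
  have := hν.1
  have h1 : ∀ᵐ z ∂ν, ‖ψ z‖ ≤ C := by
    filter_upwards [D.supp ν hν.1 hν.2] with z hz
    exact hC ⟨z, hz, rfl⟩
  refine ⟨Integrable.mono' (integrable_const C) hψ.measurable.aestronglyMeasurable h1, ?_⟩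
  have h2 := norm_integral_le_of_norm_le_const h1
  rw [Real.norm_eq_abs] at h2
  simpa using h2

/-- The data of a bump. -/
structure Bump (f : ℂ × ℂ → ℂ × ℂ) (p : ℂ × ℂ) (U : Set (ℂ × ℂ)) (b : ℂ × ℂ → ℝ) : Prop where
  cont : Continuous b
  one : ∀ z ∈ orb f p, b z = 1
  zero : ∀ z ∉ U, b z = 0

lemma integral_bump (D : CycleData f m p K U H) {b : ℂ × ℂ → ℝ} (B : Bump f p U b)
    {ν : Measure (ℂ × ℂ)} (hν : IsInvariantProb f ν) : ∫ z, b z ∂ν = ν.real (orb f p) := by
  have h1 : b =ᵐ[ν] Set.indicator (orb f p) (fun _ => (1 : ℝ)) := by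
    filter_upwards [D.sink ν hν.1 hν.2] with z hz
    by_cases h : z ∈ orb f p
    · rw [Set.indicator_of_mem h, B.one z h]
    · rw [Set.indicator_of_notMem h, B.zero z (fun hU => h (hz hU))]
  rw [integral_congr_ae h1, integral_indicator (orb_meas D.mpos D.per), setIntegral_const,
    smul_eq_mul, mul_one]

/-- Free energy along the line `ψ + t b`. -/
lemma fe_line (D : CycleData f m p K U H) {b : ℂ × ℂ → ℝ} (B : Bump f p U b)
    {ψ : ℂ × ℂ → ℝ} (hψ : Continuous ψ) {ν : Measure (ℂ × ℂ)} (hν : IsInvariantProb f ν) (t : ℝ) :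
    fe f (fun z => ψ z + t * b z) ν = fe f ψ ν + t * ν.real (orb f p) := by
  obtain ⟨_, hC⟩ := bound_on D hψ
  obtain ⟨_, hC'⟩ := bound_on D B.cont
  unfold fe
  rw [integral_add (hC ν hν).1 ((hC' ν hν).1.const_mul t), integral_const_mul,
    integral_bump D B hν]
  ring

/-- The free energies of the measures which do not charge the cycle. -/
def offSet (f : ℂ × ℂ → ℂ × ℂ) (p : ℂ × ℂ) (ψ : ℂ × ℂ → ℝ) : Set ℝ :=
  {x | ∃ μ, IsInvariantProb f μ ∧ μ (orb f p) = 0 ∧ fe f ψ μ = x}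

lemma offSet_bdd (D : CycleData f m p K U H) {ψ : ℂ × ℂ → ℝ} (hψ : Continuous ψ) :
    BddAbove (offSet f p ψ) := by
  obtain ⟨C, hC⟩ := bound_on D hψ
  refine ⟨H + C, ?_⟩
  rintro x ⟨μ, hμ, _, rfl⟩
  obtain ⟨h, _, h2, h3⟩ := entropy_real D hμ
  unfold fe
  rw [h3, EReal.toReal_coe]
  have := (abs_le.1 (hC μ hμ).2).2
  linarith

lemma fe_cyc (D : CycleData f m p K U H) (ψ : ℂ × ℂ → ℝ) : fe f ψ (cyc f m p) = avg f m p ψ := by
  have hinv := cyc_inv (f := f) (p := p) D.meas D.mpos D.per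
  have hp := hinv.1
  have h0 : ksEntropy (cyc f m p) f = 0 := by
    apply le_antisymm
    · apply ksEntropy_finite (orb_finite D.mpos D.per)
      have hO := orb_meas D.mpos D.per
      unfold cyc
      rw [Measure.smul_apply, Measure.finsetSum_apply, smul_eq_mul]
      have : ∀ i ∈ Finset.range m, (Measure.dirac (f^[i] p) : Measure (ℂ × ℂ)) (orb f p)ᶜ = 0 := by
        intro i _
        rw [Measure.dirac_apply' _ hO.compl, Set.indicator_of_notMem]
        intro h
        exact h ⟨i, rfl⟩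
      rw [Finset.sum_congr rfl this]
      simp
    · exact ksEntropy_nonneg _ _
  unfold fe
  rw [h0, integral_cyc]
  simp

lemma cyc_orb (D : CycleData f m p K U H) : (cyc f m p).real (orb f p) = 1 := by
  have hO := orb_meas D.mpos D.per
  have hm : (m : ℝ≥0∞) ≠ 0 := by exact_mod_cast D.mpos.ne'
  have hmt : (m : ℝ≥0∞) ≠ ⊤ := ENNReal.natCast_ne_top m
  have : cyc f m p (orb f p) = 1 := by
    unfold cyc
    rw [Measure.smul_apply, Measure.finsetSum_apply, smul_eq_mul]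
    have : ∀ i ∈ Finset.range m, (Measure.dirac (f^[i] p) : Measure (ℂ × ℂ)) (orb f p) = 1 := by
      intro i _
      rw [Measure.dirac_apply' _ hO, Set.indicator_of_mem]
      · rfl
      · exact ⟨i, rfl⟩
    rw [Finset.sum_congr rfl this]
    simp only [Finset.sum_const, Finset.card_range, nsmul_eq_mul, mul_one]
    exact ENNReal.inv_mul_cancel hm hmt
  simp [Measure.real, this]

lemma real_orb_eq_zero {ν : Measure (ℂ × ℂ)} [IsFiniteMeasure ν] :
    ν.real (orb f p) = 0 ↔ ν (orb f p) = 0 := by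
  rw [Measure.real, ENNReal.toReal_eq_zero_iff]
  simp

/-- The key inequality: free energies are at most affine combinations. -/
lemma fe_le (D : CycleData f m p K U H) {ψ : ℂ × ℂ → ℝ} (hψ : Continuous ψ)
    {ν : Measure (ℂ × ℂ)} (hν : IsInvariantProb f ν) :
    fe f ψ ν ≤ (1 - ν.real (orb f p)) * sSup (offSet f p ψ)
      + ν.real (orb f p) * avg f m p ψ := by
  have hprob := hν.1
  have hO := orb_meas D.mpos D.per
  have hpre := orb_pre D.inj D.mpos D.per
  by_cases h0 : ν (orb f p) = 0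
  · have h1 : ν.real (orb f p) = 0 := real_orb_eq_zero.2 h0
    rw [h1]
    have h2 := le_csSup (offSet_bdd D hψ) (⟨ν, hν, h0, rfl⟩ : fe f ψ ν ∈ offSet f p ψ)
    linarith
  by_cases h1 : ν (orb f p)ᶜ = 0
  · have h2 : ν.real (orb f p) = 1 := by
      have : ν (orb f p) = 1 := (prob_compl_eq_zero_iff hO).1 h1
      simp [Measure.real, this]
    have h3 := eq_cyc_of_full D hν h2
    rw [h2, h3, fe_cyc D]
    linarith
  set s : ℝ≥0 := (ν (orb f p)).toNNReal with hs
  set t : ℝ≥0 := (ν (orb f p)ᶜ).toNNReal with ht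
  have hsA : (s : ℝ≥0∞) = ν (orb f p) := ENNReal.coe_toNNReal (measure_ne_top ν _)
  have htA : (t : ℝ≥0∞) = ν (orb f p)ᶜ := ENNReal.coe_toNNReal (measure_ne_top ν _)
  have htne : t ≠ 0 := by
    intro h; rw [h] at htA; exact h1 htA.symm
  set μ₂ : Measure (ℂ × ℂ) := t⁻¹ • ν.restrict (orb f p)ᶜ with hμ₂
  have hcp := cyc_prob (f := f) (p := p) D.mpos
  have hres : ν.restrict (orb f p) = s • cyc f m p := by
    rw [restrict_orb D.meas D.inj D.mpos D.per ν hν.2, ← hsA]
    rfl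
  have hνd : ν = s • cyc f m p + t • μ₂ := by
    rw [hμ₂, smul_smul, mul_inv_cancel₀ htne, one_smul, ← hres,
      Measure.restrict_add_restrict_compl hO]
  have hp2 : IsProbabilityMeasure μ₂ := by
    constructor
    rw [hμ₂, Measure.smul_apply, Measure.restrict_apply_univ, ← htA]
    show ((t⁻¹ : ℝ≥0) : ℝ≥0∞) * (t : ℝ≥0∞) = 1
    rw [← ENNReal.coe_mul, inv_mul_cancel₀ htne]; simp
  have hTAc : f ⁻¹' (orb f p)ᶜ = (orb f p)ᶜ := by rw [Set.preimage_compl, hpre]
  have hr2 : MeasurePreserving f (ν.restrict (orb f p)ᶜ) (ν.restrict (orb f p)ᶜ) := by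
    have := hν.2.restrict_preimage hO.compl
    rwa [hTAc] at this
  have hm2 : MeasurePreserving f μ₂ μ₂ := hr2.smul_measure _
  have hc2 : μ₂ (orb f p) = 0 := by
    rw [hμ₂, Measure.smul_apply, Measure.restrict_apply hO]; simp
  have hinv2 : IsInvariantProb f μ₂ := ⟨hp2, hm2⟩
  obtain ⟨e₂, _, _, he₂⟩ := entropy_real D hinv2
  obtain ⟨e, _, _, he⟩ := entropy_real D hν
  have hce : ksEntropy (cyc f m p) f ≤ ((0 : ℝ) : EReal) := by
    apply ksEntropy_finite (orb_finite D.mpos D.per)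
    have hc1 : cyc f m p (orb f p) = 1 := by
      have := cyc_orb D
      rw [Measure.real, ENNReal.toReal_eq_one_iff] at this
      exact this
    exact (prob_compl_eq_zero_iff hO).2 hc1
  have hmix := ksEntropy_mix_le (cyc f m p) μ₂ s t D.meas 0 e₂ hce he₂.le
  rw [← hνd, he] at hmix
  have hmix' : e ≤ (s : ℝ) * 0 + t * e₂ := by exact_mod_cast hmix
  obtain ⟨_, hC⟩ := bound_on D hψ
  have hint : ∫ z, ψ z ∂ν = s * avg f m p ψ + t * ∫ z, ψ z ∂μ₂ := by
    conv_lhs => rw [hνd]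
    rw [integral_add_measure, integral_smul_nnreal_measure, integral_smul_nnreal_measure,
      integral_cyc]
    · rfl
    · exact ((hC _ (cyc_inv (f := f) (p := p) D.meas D.mpos D.per)).1).smul_measure_nnreal
    · exact ((hC _ hinv2).1).smul_measure_nnreal
  have hsr : ν.real (orb f p) = s := rfl
  have htr : (1 - ν.real (orb f p)) = t := by
    have : ν.real (orb f p)ᶜ = 1 - ν.real (orb f p) := by
      rw [measureReal_compl hO]; simp
    rw [← this]; rfl
  have h2 : fe f ψ μ₂ ≤ sSup (offSet f p ψ) :=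
    le_csSup (offSet_bdd D hψ) (⟨μ₂, hinv2, hc2, rfl⟩ : fe f ψ μ₂ ∈ offSet f p ψ)
  unfold fe at h2 ⊢
  rw [he₂, EReal.toReal_coe] at h2
  rw [he, EReal.toReal_coe, hint, htr, hsr]
  have ht0 : (0 : ℝ) ≤ t := t.2
  nlinarith

/-- The pressure along the line. -/
lemma pressure_line (D : CycleData f m p K U H) {b : ℂ × ℂ → ℝ} (B : Bump f p U b)
    {ψ : ℂ × ℂ → ℝ} (hψ : Continuous ψ) (hne : ∃ μ, IsInvariantProb f μ ∧ μ (orb f p) = 0)
    (t : ℝ) : pressure f (fun z => ψ z + t * b z) =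
      ((max (sSup (offSet f p ψ)) (avg f m p ψ + t) : ℝ) : EReal) := by
  have hcinv := cyc_inv (f := f) (p := p) D.meas D.mpos D.per
  apply le_antisymm
  · apply iSup_le
    intro ν
    apply iSup_le
    intro hν
    have hprob := hν.1
    rw [freeEnergy_eq D hν, fe_line D B hψ hν]
    have h1 := fe_le D hψ hν
    have h2 : ν.real (orb f p) ≤ 1 := measureReal_le_one
    have h3 : 0 ≤ ν.real (orb f p) := measureReal_nonneg
    have h4 := le_max_left (sSup (offSet f p ψ)) (avg f m p ψ + t)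
    have h5 := le_max_right (sSup (offSet f p ψ)) (avg f m p ψ + t)
    have h6 : fe f ψ ν + t * ν.real (orb f p) ≤ max (sSup (offSet f p ψ)) (avg f m p ψ + t) := by
      nlinarith
    exact_mod_cast h6
  · rw [EReal.coe_strictMono.monotone.map_max]
    apply max_le
    · obtain ⟨μ₀, hμ₀, hμ₀0⟩ := hne
      have hP : (sSup (offSet f p ψ) : ℝ) ∈ closure (offSet f p ψ) :=
        csSup_mem_closure ⟨_, μ₀, hμ₀, hμ₀0, rfl⟩ (offSet_bdd D hψ)
      have hle : ∀ x ∈ offSet f p ψ, ((x : ℝ) : EReal) ≤ pressure f (fun z => ψ z + t * b z) := by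
        rintro x ⟨μ, hμ, hμ0, rfl⟩
        have hprob := hμ.1
        have h1 : freeEnergy f (fun z => ψ z + t * b z) μ = (fe f ψ μ : EReal) := by
          rw [freeEnergy_eq D hμ, fe_line D B hψ hμ, real_orb_eq_zero.2 hμ0]
          simp
        rw [← h1]
        exact le_iSup_of_le μ (le_iSup_of_le hμ le_rfl)
      by_contra hcon
      push Not at hcon
      obtain ⟨c, hc1, hc2⟩ := EReal.lt_iff_exists_real_btwn.1 hcon
      have hc3 : c < sSup (offSet f p ψ) := by exact_mod_cast hc2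
      have hne' : (offSet f p ψ).Nonempty := ⟨_, μ₀, hμ₀, hμ₀0, rfl⟩
      obtain ⟨x, hx, hcx⟩ := exists_lt_of_lt_csSup hne' hc3
      have := hle x hx
      have h2 : ((c : ℝ) : EReal) < (x : EReal) := by exact_mod_cast hcx
      exact absurd (lt_of_lt_of_le h2 this) (not_lt.2 hc1.le)
    · have h1 : freeEnergy f (fun z => ψ z + t * b z) (cyc f m p) =
          ((avg f m p ψ + t : ℝ) : EReal) := by
        rw [freeEnergy_eq D hcinv, fe_line D B hψ hcinv, fe_cyc D, cyc_orb D, mul_one]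
      rw [← h1]
      exact le_iSup_of_le _ (le_iSup_of_le hcinv le_rfl)

/-- Equilibrium states along the line, in terms of real numbers. -/
lemma isEq_line (D : CycleData f m p K U H) {b : ℂ × ℂ → ℝ} (B : Bump f p U b)
    {ψ : ℂ × ℂ → ℝ} (hψ : Continuous ψ) (hne : ∃ μ, IsInvariantProb f μ ∧ μ (orb f p) = 0)
    (t : ℝ) (ν : Measure (ℂ × ℂ)) : IsEquilibriumState f (fun z => ψ z + t * b z) ν ↔
      IsInvariantProb f ν ∧ fe f ψ ν + t * ν.real (orb f p) =
        max (sSup (offSet f p ψ)) (avg f m p ψ + t) := by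
  unfold IsEquilibriumState
  constructor
  · rintro ⟨h1, h2⟩
    refine ⟨h1, ?_⟩
    rw [freeEnergy_eq D h1, fe_line D B hψ h1, pressure_line D B hψ hne t] at h2
    exact_mod_cast h2
  · rintro ⟨h1, h2⟩
    refine ⟨h1, ?_⟩
    rw [freeEnergy_eq D h1, fe_line D B hψ h1, pressure_line D B hψ hne t, h2]

/-- **First order phase transition** on every line `ψ + t b`. -/
theorem transition (D : CycleData f m p K U H) {b : ℂ × ℂ → ℝ} (B : Bump f p U b)
    {ψ : ℂ × ℂ → ℝ} (hψ : Continuous ψ) (hne : ∃ μ, IsInvariantProb f μ ∧ μ (orb f p) = 0) :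
    ∃ τ : ℝ, τ = sSup (offSet f p ψ) - avg f m p ψ ∧
      (∀ t, pressure f (fun z => ψ z + t * b z) =
        ((max (avg f m p ψ + τ) (avg f m p ψ + t) : ℝ) : EReal)) ∧
      (∀ t, τ < t → ∀ ν, IsEquilibriumState f (fun z => ψ z + t * b z) ν ↔ ν = cyc f m p) ∧
      (∀ t, t < τ → ∀ ν, IsEquilibriumState f (fun z => ψ z + t * b z) ν ↔
        (ν (orb f p) = 0 ∧ IsEquilibriumState f (fun z => ψ z + τ * b z) ν)) ∧
      IsEquilibriumState f (fun z => ψ z + τ * b z) (cyc f m p) := by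
  have hcinv := cyc_inv (f := f) (p := p) D.meas D.mpos D.per
  set P := sSup (offSet f p ψ) with hP
  set A := avg f m p ψ with hA
  refine ⟨P - A, rfl, ?_, ?_, ?_, ?_⟩
  · intro t
    rw [pressure_line D B hψ hne t]
    congr 2
    ring
  · intro t ht ν
    rw [isEq_line D B hψ hne]
    rw [← hP, ← hA, max_eq_right (by linarith)]
    constructor
    · rintro ⟨h1, h2⟩
      have hprob := h1.1
      have h3 := fe_le D hψ h1
      rw [← hP, ← hA] at h3
      have h4 : ν.real (orb f p) ≤ 1 := measureReal_le_one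
      have h5 : ν.real (orb f p) = 1 := by
        by_contra hne'
        have hlt : ν.real (orb f p) < 1 := lt_of_le_of_ne h4 hne'
        nlinarith
      exact eq_cyc_of_full D h1 h5
    · rintro rfl
      exact ⟨hcinv, by rw [fe_cyc D, cyc_orb D, mul_one]⟩
  · intro t ht ν
    rw [isEq_line D B hψ hne, isEq_line D B hψ hne]
    rw [← hP, ← hA, max_eq_left (by linarith), max_eq_left (by linarith)]
    constructor
    · rintro ⟨h1, h2⟩
      have hprob := h1.1
      have h3 := fe_le D hψ h1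
      rw [← hP, ← hA] at h3
      have h4 : 0 ≤ ν.real (orb f p) := measureReal_nonneg
      have h5 : ν.real (orb f p) = 0 := by
        by_contra hne'
        have hlt : 0 < ν.real (orb f p) := lt_of_le_of_ne h4 (Ne.symm hne')
        nlinarith
      refine ⟨real_orb_eq_zero.1 h5, h1, ?_⟩
      rw [h5] at h2 ⊢
      linarith
    · rintro ⟨h0, h1, h2⟩
      have hprob := h1.1
      have h5 : ν.real (orb f p) = 0 := real_orb_eq_zero.2 h0
      refine ⟨h1, ?_⟩
      rw [h5] at h2 ⊢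
      linarith
  · rw [isEq_line D B hψ hne]
    refine ⟨hcinv, ?_⟩
    rw [fe_cyc D, cyc_orb D, mul_one, ← hP, ← hA, max_eq_right (by linarith)]

end Pool.Agent.D0H35.Hen
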