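import Pool.Agent.D0H35.Hen.Core

/-! A complex Henon map with an attracting or repelling cycle has an invariant probability measure
that does not charge the cycle. -/

set_option autoImplicit false

open MeasureTheory Filter Topology
open scoped ENNReal NNReal

namespace Pool.Agent.D0H35.Hen

open Pool.Agent.Helper179.KS Pool.Agent.Helper179.Eq Pool.Agent.Y203.HN
open Pool.Agent.Results.MP_636246_an.SinkSaddles

/-- Krylov–Bogoliubov. -/
theorem krylov_bogoliubov {E : Type*} [TopologicalSpace E] [CompactSpace E] [T2Space E]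
    [MeasurableSpace E] [BorelSpace E] [HasOuterApproxClosed E] {T : E → E} (hT : Continuous T)
    (x₀ : E) : ∃ μ : Measure E, IsProbabilityMeasure μ ∧ μ.map T = μ := by
  classical
  have hpr : ∀ N : ℕ, IsProbabilityMeasure
      (((N : ENNReal) + 1)⁻¹ • ∑ j ∈ Finset.range (N + 1), Measure.dirac (T^[j] x₀)) := by
    intro N
    refine ⟨?_⟩
    rw [Measure.smul_apply, Measure.finsetSum_apply]
    simp only [measure_univ, Finset.sum_const, Finset.card_range, nsmul_eq_mul, mul_one, smul_eq_mul]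
    push_cast
    apply ENNReal.inv_mul_cancel
    · simp
    · finiteness
  set ν : ℕ → ProbabilityMeasure E := fun N =>
    ⟨((N : ENNReal) + 1)⁻¹ • ∑ j ∈ Finset.range (N + 1), Measure.dirac (T^[j] x₀), hpr N⟩ with hν
  have hint : ∀ (N : ℕ) (g : BoundedContinuousFunction E ℝ), ∫ x, g x ∂(ν N : Measure E) =
      ((N : ℝ) + 1)⁻¹ * ∑ j ∈ Finset.range (N + 1), g (T^[j] x₀) := by
    intro N g
    have h1 : (ν N : Measure E) =
      ((N : ENNReal) + 1)⁻¹ • ∑ j ∈ Finset.range (N + 1), Measure.dirac (T^[j] x₀) := rfl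
    rw [h1, integral_smul_measure, integral_finsetSum_measure]
    · simp only [integral_dirac]
      rw [smul_eq_mul]
      congr 1
      rw [ENNReal.toReal_inv]
      have : ((N : ENNReal) + 1).toReal = (N : ℝ) + 1 := by
        rw [ENNReal.toReal_add (by finiteness) (by finiteness)]
        simp
      rw [this]
    · intro j _
      exact g.integrable _
  obtain ⟨μ, -, hμ⟩ := (isCompact_univ (X := ProbabilityMeasure E)).ultrafilter_le_nhds
    ((hyperfilter ℕ : Ultrafilter ℕ).map ν) (by simp)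
  have hlim : Tendsto ν (hyperfilter ℕ : Filter ℕ) (𝓝 μ) := hμ
  rw [ProbabilityMeasure.tendsto_iff_forall_integral_tendsto] at hlim
  refine ⟨(μ : Measure E), inferInstance, ?_⟩
  haveI : IsProbabilityMeasure ((μ : Measure E).map T) :=
    Measure.isProbabilityMeasure_map hT.measurable.aemeasurable
  apply ext_of_forall_integral_eq_of_IsFiniteMeasure
  intro g
  rw [integral_map hT.measurable.aemeasurable g.continuous.measurable.aestronglyMeasurable]
  set gT : BoundedContinuousFunction E ℝ := g.compContinuous ⟨T, hT⟩ with hgT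
  have h1 := hlim g
  have h2 := hlim gT
  have h3 : Tendsto (fun N : ℕ => ∫ x, gT x ∂(ν N : Measure E) - ∫ x, g x ∂(ν N : Measure E))
      (hyperfilter ℕ : Filter ℕ) (𝓝 0) := by
    have h4 : Tendsto (fun N : ℕ => (2 * ‖g‖) * ((N : ℝ) + 1)⁻¹) atTop (𝓝 0) := by
      have := tendsto_one_div_add_atTop_nhds_zero_nat (𝕜 := ℝ)
      have := this.const_mul (2 * ‖g‖)
      simpa using this
    have h5 : Tendsto (fun N : ℕ => (2 * ‖g‖) * ((N : ℝ) + 1)⁻¹) (hyperfilter ℕ : Filter ℕ)
        (𝓝 0) := h4.mono_left (by rw [← Nat.cofinite_eq_atTop]; exact hyperfilter_le_cofinite)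
    apply squeeze_zero_norm _ h5
    intro N
    rw [hint, hint]
    have h6 : ∑ j ∈ Finset.range (N + 1), gT (T^[j] x₀) =
        ∑ j ∈ Finset.range (N + 1), g (T^[j + 1] x₀) := by
      apply Finset.sum_congr rfl
      intro j _
      rw [Function.iterate_succ_apply']
      rfl
    rw [h6, ← mul_sub, ← Finset.sum_sub_distrib,
      Finset.sum_range_sub (fun j => g (T^[j] x₀)), norm_mul, mul_comm]
    apply mul_le_mul
    · have := norm_sub_le (g (T^[N + 1] x₀)) (g (T^[0] x₀))
      have h7 := g.norm_coe_le_norm (T^[N + 1] x₀)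
      have h8 := g.norm_coe_le_norm (T^[0] x₀)
      linarith
    · rw [norm_inv, Real.norm_eq_abs, abs_of_nonneg (by positivity)]
    · exact norm_nonneg _
    · positivity
  have h4 := tendsto_nhds_unique (h2.sub h1) h3
  have h5 : ∫ x, gT x ∂(μ : Measure E) = ∫ x, g x ∂(μ : Measure E) := by linarith
  exact h5

/-- A continuous self-map with a bounded forward orbit that avoids an open set `B` has an invariant
probability measure with `ν B = 0`. -/
theorem exists_inv_avoid {F : ℂ × ℂ → ℂ × ℂ} (hF : Continuous F) {B : Set (ℂ × ℂ)} (hB : IsOpen B)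
    {z : ℂ × ℂ} {M : ℝ} (hM : ∀ n : ℕ, ‖F^[n] z‖ ≤ M) (hz : ∀ n : ℕ, F^[n] z ∉ B) :
    ∃ ν : Measure (ℂ × ℂ), IsProbabilityMeasure ν ∧ MeasurePreserving F ν ν ∧ ν B = 0 := by
  set C : Set (ℂ × ℂ) := closure (Set.range fun n : ℕ => F^[n] z) with hC
  have hCc : IsCompact C := by
    apply Metric.isCompact_of_isClosed_isBounded isClosed_closure
    apply Bornology.IsBounded.closure
    rw [isBounded_iff_forall_norm_le]
    exact ⟨M, by rintro _ ⟨n, rfl⟩; exact hM n⟩
  have hCB : ∀ x ∈ C, x ∉ B := by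
    intro x hx
    have h1 : C ⊆ Bᶜ := by
      apply closure_minimal _ hB.isClosed_compl
      rintro _ ⟨n, rfl⟩
      exact hz n
    exact h1 hx
  have hCF : ∀ x ∈ C, F x ∈ C := by
    have h1 : C ⊆ F ⁻¹' C := by
      apply closure_minimal _ (isClosed_closure.preimage hF)
      rintro _ ⟨n, rfl⟩
      apply subset_closure
      exact ⟨n + 1, Function.iterate_succ_apply' F n z⟩
    exact fun x hx => h1 hx
  haveI : CompactSpace C := isCompact_iff_compactSpace.1 hCc
  set T : C → C := fun x => ⟨F x.1, hCF x.1 x.2⟩ with hT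
  have hTc : Continuous T := (hF.comp continuous_subtype_val).subtype_mk _
  obtain ⟨μ, hμ1, hμ2⟩ := krylov_bogoliubov hTc ⟨z, subset_closure ⟨0, rfl⟩⟩
  have hm : Measurable (Subtype.val : C → ℂ × ℂ) := measurable_subtype_coe
  refine ⟨μ.map Subtype.val, Measure.isProbabilityMeasure_map hm.aemeasurable,
    ⟨hF.measurable, ?_⟩, ?_⟩
  · rw [Measure.map_map hF.measurable hm]
    have h1 : F ∘ (Subtype.val : C → ℂ × ℂ) = Subtype.val ∘ T := rfl
    rw [h1, ← Measure.map_map hm hTc.measurable, hμ2]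
  · rw [Measure.map_apply hm hB.measurableSet]
    have : (Subtype.val : C → ℂ × ℂ) ⁻¹' B = ∅ := by
      ext x
      simp only [Set.mem_preimage, Set.mem_empty_iff_false, iff_false]
      exact hCB x.1 x.2
    rw [this, measure_empty]

/-- Escape to infinity with respect to the norm-like coordinates `α`, `β`. -/
structure Esc (F : ℂ × ℂ → ℂ × ℂ) (α β : ℂ × ℂ → ℝ) (R : ℝ) : Prop where
  pos : 0 < R
  ca : Continuous α
  cb : Continuous β
  nrm : ∀ z, ‖z‖ = max (α z) (β z)
  fwd : ∀ z, R < β z → α z ≤ β z → 2 * β z ≤ β (F z)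
  fwd' : ∀ z, R < β z → α z ≤ β z → α (F z) < β (F z)
  bwd : ∀ z, R < α (F z) → β (F z) ≤ α (F z) → 2 * α (F z) ≤ α z
  ne : ∃ z, R < β z ∧ α z < β z

/-- The points which escape. -/
def escSet (F : ℂ × ℂ → ℂ × ℂ) (α β : ℂ × ℂ → ℝ) (R : ℝ) : Set (ℂ × ℂ) :=
  {z | ∃ n : ℕ, R < β (F^[n] z) ∧ α (F^[n] z) < β (F^[n] z)}

lemma escSet_open {F : ℂ × ℂ → ℂ × ℂ} {α β : ℂ × ℂ → ℝ} {R : ℝ} (hF : Continuous F)
    (E : Esc F α β R) : IsOpen (escSet F α β R) := by
  have : escSet F α β R = ⋃ n : ℕ, {z | R < β (F^[n] z) ∧ α (F^[n] z) < β (F^[n] z)} := by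
    ext z
    simp [escSet]
  rw [this]
  apply isOpen_iUnion
  intro n
  exact (isOpen_lt continuous_const (E.cb.comp (hF.iterate n))).inter
    (isOpen_lt (E.ca.comp (hF.iterate n)) (E.cb.comp (hF.iterate n)))

/-- Escaping points have unbounded orbits. -/
lemma esc_unbounded {F : ℂ × ℂ → ℂ × ℂ} {α β : ℂ × ℂ → ℝ} {R : ℝ} (E : Esc F α β R)
    {z : ℂ × ℂ} (hz : z ∈ escSet F α β R) (M : ℝ) : ∀ᶠ n in atTop, M < ‖F^[n] z‖ := by
  obtain ⟨n, h1, h2⟩ := hz
  have h3 : ∀ k : ℕ, R * 2 ^ k < β (F^[k + n] z) ∧ α (F^[k + n] z) < β (F^[k + n] z) := by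
    intro k
    induction k with
    | zero => simpa using ⟨h1, h2⟩
    | succ k ih =>
      have hR : R < β (F^[k + n] z) := by
        have : (1 : ℝ) ≤ 2 ^ k := one_le_pow₀ (by norm_num)
        have := E.pos
        nlinarith [ih.1]
      have e : F^[k + 1 + n] z = F (F^[k + n] z) := by
        rw [← Function.iterate_succ_apply' F]
        congr 2
        omega
      rw [e]
      refine ⟨?_, E.fwd' _ hR ih.2.le⟩
      have := E.fwd _ hR ih.2.le
      rw [pow_succ]
      linarith [ih.1]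
  obtain ⟨k, hk⟩ := pow_unbounded_of_one_lt (M / R) (by norm_num : (1 : ℝ) < 2)
  rw [div_lt_iff₀ E.pos] at hk
  rw [eventually_atTop]
  refine ⟨k + n, ?_⟩
  intro l hl
  obtain ⟨j, rfl⟩ : ∃ j, l = j + n := ⟨l - n, by omega⟩
  have h4 := (h3 j).1
  have h5 : (2 : ℝ) ^ k ≤ 2 ^ j := pow_le_pow_right₀ (by norm_num) (by omega)
  have h6 : β (F^[j + n] z) ≤ ‖F^[j + n] z‖ := by
    rw [E.nrm]; exact le_max_right _ _
  have := E.pos
  nlinarith

/-- Non-escaping points have bounded forward orbits. -/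
lemma bounded_of_not_esc {F : ℂ × ℂ → ℂ × ℂ} {α β : ℂ × ℂ → ℝ} {R : ℝ} (E : Esc F α β R)
    {z : ℂ × ℂ} (hz : z ∉ escSet F α β R) (n : ℕ) : ‖F^[n] z‖ ≤ max R ‖z‖ := by
  have h1 : ∀ n : ℕ, ¬ (R < β (F^[n] z) ∧ α (F^[n] z) ≤ β (F^[n] z)) := by
    rintro n ⟨h2, h3⟩
    apply hz
    refine ⟨n + 1, ?_⟩
    rw [Function.iterate_succ_apply']
    refine ⟨?_, E.fwd' _ h2 h3⟩
    have := E.fwd _ h2 h3
    have := E.pos
    linarith
  induction n with
  | zero => simp
  | succ n ih =>
    by_cases hbox : ‖F^[n + 1] z‖ ≤ R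
    · exact hbox.trans (le_max_left _ _)
    · push Not at hbox
      rw [E.nrm] at hbox
      have h2 := h1 (n + 1)
      have h3 : R < α (F^[n + 1] z) ∧ β (F^[n + 1] z) ≤ α (F^[n + 1] z) := by
        rcases lt_max_iff.1 hbox with h | h
        · refine ⟨h, ?_⟩
          by_contra hc
          push Not at hc
          exact h2 ⟨h.trans hc, hc.le⟩
        · have h4 : β (F^[n + 1] z) < α (F^[n + 1] z) := by
            by_contra hc
            push Not at hc
            exact h2 ⟨h, hc⟩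
          exact ⟨h.trans h4, h4.le⟩
      have h5 : ‖F^[n + 1] z‖ = α (F^[n + 1] z) := by
        rw [E.nrm]; exact max_eq_left h3.2
      have h6 : α (F^[n] z) ≤ ‖F^[n] z‖ := by rw [E.nrm]; exact le_max_left _ _
      rw [h5]
      rw [Function.iterate_succ_apply'] at h3 ⊢
      have h7 := E.bwd _ h3.1 h3.2
      have := E.pos
      linarith [h3.1]

/-- The basin of an attracting cycle is not the complement of the escaping set. -/
theorem exists_bounded_off_basin {F : ℂ × ℂ → ℂ × ℂ} {α β : ℂ × ℂ → ℝ} {R : ℝ}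
    (hF : Continuous F) (E : Esc F α β R) {p : ℂ × ℂ} {q : ℕ} {r : ℝ} (hr : 0 < r) (hq : 0 < q)
    (hcon : ∀ z, ‖z - p‖ < r → ‖F^[q] z - p‖ ≤ 3 / 4 * ‖z - p‖) {m : ℕ} (hm : 0 < m)
    (hp : F^[m] p = p) :
    ∃ (z : ℂ × ℂ) (M : ℝ), (∀ n : ℕ, ‖F^[n] z‖ ≤ M) ∧ ∀ n : ℕ, F^[n] z ∉ bas F p r := by
  -- the basin and the escaping set do not cover the space
  obtain ⟨z, hz1, hz2⟩ : ∃ z, z ∉ bas F p r ∧ z ∉ escSet F α β R := by
    by_contra hcon'
    push Not at hcon'
    have h1 := isPreconnected_univ (α := ℂ × ℂ) (bas F p r) (escSet F α β R)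
      (bas_open hF p r) (escSet_open hF E)
      (by
        intro z _
        by_cases h : z ∈ bas F p r
        · exact Or.inl h
        · exact Or.inr (hcon' z h))
      ⟨p, trivial, ⟨0, by simpa using hr⟩⟩
      (by
        obtain ⟨w, hw1, hw2⟩ := E.ne
        exact ⟨w, trivial, 0, hw1, hw2⟩)
    obtain ⟨z, _, h2, h3⟩ := h1
    -- a point of the basin returns near the cycle, whose points are bounded
    obtain ⟨M, hM⟩ := (orb_finite (f := F) hm hp).isBounded.exists_norm_le
    have h4 := eventually_near hF hq hcon h2 (V := Metric.ball 0 (M + 1)) Metric.isOpen_ball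
      (fun i => by
        rw [mem_ball_zero_iff]
        have := hM _ (⟨i, rfl⟩ : F^[i] p ∈ orb F p)
        linarith)
    have h5 := esc_unbounded E h3 (M + 1)
    obtain ⟨n, h6, h7⟩ := (h4.and h5).exists
    rw [mem_ball_zero_iff] at h6
    linarith
  refine ⟨z, max R ‖z‖, fun n => bounded_of_not_esc E hz2 n, ?_⟩
  rintro n ⟨i, hi⟩
  apply hz1
  refine ⟨i + n, ?_⟩
  rwa [Function.iterate_add_apply]

/-- The strict form of the escape property. -/
def StrictEsc (f : ℂ × ℂ → ℂ × ℂ) (R : ℝ) : Prop :=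
  (∀ z : ℂ × ℂ, R < ‖z.2‖ → ‖z.1‖ ≤ ‖z.2‖ → ‖(f z).1‖ < ‖(f z).2‖) ∧
  (∀ z : ℂ × ℂ, R < ‖(f z).1‖ → ‖(f z).2‖ ≤ ‖(f z).1‖ → ‖z.2‖ < ‖z.1‖)

lemma strict_elementary (P : Polynomial ℂ) (a : ℂ) {R : ℝ} (hR : 0 < R)
    (h : EscAt (elementaryHenon P a) R) : StrictEsc (elementaryHenon P a) R := by
  constructor
  · intro z hz1 hz2
    have h1 := (h.1 z hz1 hz2).1
    have h2 : (elementaryHenon P a z).1 = z.2 := rfl
    rw [h2]
    linarith
  · intro z hz1 hz2
    have h1 := (h.2 z hz1 hz2).1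
    have h2 : (elementaryHenon P a z).1 = z.2 := rfl
    rw [h2] at h1 hz1
    linarith

lemma strict_comp {f h : ℂ × ℂ → ℂ × ℂ} {R : ℝ} (hR : 0 < R) (hf : EscAt f R) (hf' : StrictEsc f R)
    (hh : EscAt h R) (hh' : StrictEsc h R) : StrictEsc (h ∘ f) R := by
  constructor
  · intro z hz1 hz2
    have h1 := hf.1 z hz1 hz2
    exact hh'.1 (f z) (by linarith [h1.1]) h1.2
  · intro z hz1 hz2
    simp only [Function.comp_apply] at hz1 hz2 ⊢
    have h1 := hh.2 (f z) hz1 hz2
    exact hf'.2 z (by linarith [h1.1]) h1.2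

/-- Complex Henon maps have both escape properties. -/
theorem exists_esc {f : ℂ × ℂ → ℂ × ℂ} (hf : IsComplexHenon f) :
    ∃ R₀ : ℝ, 0 < R₀ ∧ ∀ R, R₀ ≤ R → EscAt f R ∧ StrictEsc f R := by
  induction hf with
  | elementary P a hP ha =>
    obtain ⟨R₀, h0, h1⟩ := esc_elementary P a hP ha
    exact ⟨R₀, h0, fun R hR => ⟨h1 R hR, strict_elementary P a (h0.trans_le hR) (h1 R hR)⟩⟩
  | comp P a f hP ha hf ih =>
    obtain ⟨R₁, hR₁, h1⟩ := ih
    obtain ⟨R₂, hR₂, h2⟩ := esc_elementary P a hP ha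
    refine ⟨max R₁ R₂, lt_max_of_lt_left hR₁, ?_⟩
    intro R hR
    have hRpos : 0 < R := (lt_max_of_lt_left hR₁).trans_le hR
    have h3 := h1 R ((le_max_left _ _).trans hR)
    have h4 := h2 R ((le_max_right _ _).trans hR)
    exact ⟨esc_comp h3.1 h4, strict_comp hRpos h3.1 h3.2 h4 (strict_elementary P a hRpos h4)⟩

/-- **Invariant measures off the cycle.** -/
theorem exists_off {f : ℂ × ℂ → ℂ × ℂ} (hf : IsComplexHenon f) {m : ℕ} {p : ℂ × ℂ}
    (h : Att f m p ∨ Rep f m p) : ∃ ν, IsInvariantProb f ν ∧ ν (orb f p) = 0 := by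
  obtain ⟨g, G⟩ := exists_good hf
  obtain ⟨R, hR, hesc⟩ := exists_esc hf
  obtain ⟨hE, hS⟩ := hesc R le_rfl
  have hm : 0 < m := by rcases h with h | h <;> exact h.1
  have hp : f^[m] p = p := by rcases h with h | h <;> exact h.2.1
  rcases h with h | h
  · -- attracting
    have E : Esc f (fun z => ‖z.1‖) (fun z => ‖z.2‖) R :=
      { pos := hR
        ca := by fun_prop
        cb := by fun_prop
        nrm := fun z => Prod.norm_def z
        fwd := fun z h1 h2 => (hE.1 z h1 h2).1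
        fwd' := fun z h1 h2 => hS.1 z h1 h2
        bwd := fun z h1 h2 => (hE.2 z h1 h2).1
        ne := ⟨(0, ((R + 1 : ℝ) : ℂ)), by
          simp only [norm_zero, Complex.norm_real, Real.norm_eq_abs]
          rw [abs_of_pos (by linarith)]
          constructor <;> linarith⟩ }
    obtain ⟨q, r, hq, hr, _, hcon⟩ :=
      exists_contraction (G.smooth.differentiable one_ne_zero) h
    obtain ⟨z, M, hM, hz⟩ := exists_bounded_off_basin G.cont E hr hq hcon hm hp
    obtain ⟨ν, h1, h2, h3⟩ := exists_inv_avoid G.cont (bas_open G.cont p r) hM hz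
    refine ⟨ν, ⟨h1, h2⟩, measure_mono_null ?_ h3⟩
    rintro _ ⟨i, rfl⟩
    refine ⟨m * i - i, ?_⟩
    rw [← Function.iterate_add_apply]
    have : m * i - i + i = m * i := Nat.sub_add_cancel (Nat.le_mul_of_pos_left i hm)
    rw [this, Function.iterate_mul, Function.iterate_fixed hp i]
    simpa using hr
  · -- repelling
    have hA := rep_inverse G h
    have E : Esc g (fun z => ‖z.2‖) (fun z => ‖z.1‖) R :=
      { pos := hR
        ca := by fun_prop
        cb := by fun_prop
        nrm := fun z => by rw [Prod.norm_def, max_comm]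
        fwd := fun z h1 h2 => by
          have h3 := hE.2 (g z)
          rw [G.right] at h3
          exact (h3 h1 h2).1
        fwd' := fun z h1 h2 => by
          have h3 := hS.2 (g z)
          rw [G.right] at h3
          exact h3 h1 h2
        bwd := fun z h1 h2 => by
          have h3 := hE.1 (g z)
          rw [G.right] at h3
          exact (h3 h1 h2).1
        ne := ⟨(((R + 1 : ℝ) : ℂ), 0), by
          simp only [norm_zero, Complex.norm_real, Real.norm_eq_abs]
          rw [abs_of_pos (by linarith)]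
          constructor <;> linarith⟩ }
    obtain ⟨q, r, hq, hr, _, hcon⟩ :=
      exists_contraction (G.smooth'.differentiable one_ne_zero) hA
    obtain ⟨z, M, hM, hz⟩ := exists_bounded_off_basin G.cont' E hr hq hcon hA.1 hA.2.1
    obtain ⟨ν, h1, h2, h3⟩ := exists_inv_avoid G.cont' (bas_open G.cont' p r) hM hz
    have h4 : MeasurePreserving f ν ν := by
      refine ⟨G.cont.measurable, ?_⟩
      conv_lhs => rw [← h2.map_eq]
      rw [Measure.map_map G.cont.measurable G.cont'.measurable]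
      have : f ∘ g = id := funext G.right
      rw [this, Measure.map_id]
    refine ⟨ν, ⟨h1, h4⟩, measure_mono_null ?_ h3⟩
    rintro _ ⟨i, rfl⟩
    refine ⟨i, ?_⟩
    have h5 : g^[i] (f^[i] p) = p := (Function.LeftInverse.iterate G.left i) p
    simp only
    rw [h5]
    simpa using hr

end Pool.Agent.D0H35.Hen
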