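import Pool.Agent.D0H35.Hen.Off

/-! Conjugation by the swap of coordinates. -/

set_option autoImplicit false

open MeasureTheory Filter Topology
open scoped ENNReal NNReal

namespace Pool.Agent.D0H35.Hen

open Pool.Agent.Helper179.KS Pool.Agent.Helper179.Eq Pool.Agent.Y203.HN

/-- Conjugation by the swap of coordinates. -/
def cj (f : ℂ × ℂ → ℂ × ℂ) (p : ℂ × ℂ) : ℂ × ℂ := (f p.swap).swap

lemma cj_iterate (f : ℂ × ℂ → ℂ × ℂ) (n : ℕ) (p : ℂ × ℂ) :
    (cj f)^[n] p = (f^[n] p.swap).swap := by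
  induction n generalizing p with
  | zero => simp
  | succ n ih =>
    rw [Function.iterate_succ_apply, ih, Function.iterate_succ_apply]
    simp [cj]

lemma cj_cj (f : ℂ × ℂ → ℂ × ℂ) : cj (cj f) = f := by
  funext p
  simp [cj]

lemma map_swap_swap (ν : Measure (ℂ × ℂ)) : (ν.map Prod.swap).map Prod.swap = ν := by
  rw [Measure.map_map measurable_swap measurable_swap]
  simp

lemma measurable_cj {f : ℂ × ℂ → ℂ × ℂ} (hf : Measurable f) : Measurable (cj f) :=
  measurable_swap.comp (hf.comp measurable_swap)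

lemma swap_me : MeasurableEmbedding (Prod.swap : ℂ × ℂ → ℂ × ℂ) :=
  MeasurableEquiv.prodComm.measurableEmbedding

lemma shannon_map_swap {ι : Type*} [Fintype ι] (ν : Measure (ℂ × ℂ)) (P : ℂ × ℂ → ι) :
    shannonEntropy (ν.map Prod.swap) P = shannonEntropy ν (P ∘ Prod.swap) := by
  unfold shannonEntropy
  apply Finset.sum_congr rfl
  intro i _
  congr 1
  unfold Measure.real
  rw [swap_me.map_apply]
  rfl

lemma itinerary_comp_swap {ι : Type*} (f : ℂ × ℂ → ℂ × ℂ) (P : ℂ × ℂ → ι) (n : ℕ) :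
    itinerary (cj f) P n ∘ Prod.swap = itinerary f (P ∘ Prod.swap) n := by
  funext p
  funext j
  simp only [Function.comp_apply, itinerary]
  rw [cj_iterate]
  simp

lemma ksEntropy_map_swap_le (f : ℂ × ℂ → ℂ × ℂ) (ν : Measure (ℂ × ℂ)) :
    ksEntropy (ν.map Prod.swap) (cj f) ≤ ksEntropy ν f := by
  rw [ksEntropy_le_iff]
  intro k P hP
  have h1 : partitionEntropy (ν.map Prod.swap) (cj f) P = partitionEntropy ν f (P ∘ Prod.swap) := by
    unfold partitionEntropy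
    congr 1
    funext n
    rw [shannon_map_swap, itinerary_comp_swap]
  rw [h1]
  unfold ksEntropy
  exact le_iSup_of_le k (le_iSup_of_le (P ∘ Prod.swap)
    (le_iSup_of_le (hP.comp measurable_swap) le_rfl))

lemma ksEntropy_map_swap (f : ℂ × ℂ → ℂ × ℂ) (ν : Measure (ℂ × ℂ)) :
    ksEntropy (ν.map Prod.swap) (cj f) = ksEntropy ν f := by
  apply le_antisymm (ksEntropy_map_swap_le f ν)
  have h := ksEntropy_map_swap_le (cj f) (ν.map Prod.swap)
  rwa [map_swap_swap, cj_cj] at h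

lemma inv_map_swap {f : ℂ × ℂ → ℂ × ℂ} {ν : Measure (ℂ × ℂ)}
    (h : IsInvariantProb f ν) : IsInvariantProb (cj f) (ν.map Prod.swap) := by
  have hp := h.1
  refine ⟨Measure.isProbabilityMeasure_map measurable_swap.aemeasurable,
    measurable_cj h.2.measurable, ?_⟩
  rw [Measure.map_map (measurable_cj h.2.measurable) measurable_swap]
  have h1 : cj f ∘ Prod.swap = Prod.swap ∘ f := by
    funext p
    simp [cj]
  rw [h1, ← Measure.map_map measurable_swap h.2.measurable, h.2.map_eq]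

lemma orb_cj (f : ℂ × ℂ → ℂ × ℂ) (p z : ℂ × ℂ) :
    z ∈ orb (cj f) p.swap ↔ z.swap ∈ orb f p := by
  simp only [orb, Set.mem_range, cj_iterate, Prod.swap_swap]
  constructor
  · rintro ⟨i, rfl⟩
    exact ⟨i, by simp⟩
  · rintro ⟨i, hi⟩
    exact ⟨i, by rw [hi]; simp⟩

/-- Transport of the standing data. -/
lemma CycleData.swap {f : ℂ × ℂ → ℂ × ℂ} {m : ℕ} {p : ℂ × ℂ} {K U : Set (ℂ × ℂ)} {H : ℝ}
    (D : CycleData (cj f) m p.swap K U H) :
    CycleData f m p (Prod.swap ⁻¹' K) (Prod.swap ⁻¹' U) H := by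
  have hae : ∀ (ν : Measure (ℂ × ℂ)) (Q : ℂ × ℂ → Prop),
      (∀ᵐ z ∂(ν.map Prod.swap), Q z) → ∀ᵐ z ∂ν, Q z.swap := by
    intro ν Q h
    exact (swap_me.ae_map_iff).1 h
  have hinv : ∀ ν : Measure (ℂ × ℂ), IsProbabilityMeasure ν → MeasurePreserving f ν ν →
      IsInvariantProb (cj f) (ν.map Prod.swap) := fun ν h1 h2 => inv_map_swap ⟨h1, h2⟩
  refine ⟨?_, ?_, D.mpos, ?_, D.Hnn, ?_, ?_, ?_, ?_, ?_, ?_⟩
  · have := measurable_cj D.meas
    rwa [cj_cj] at this
  · intro z w hzw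
    have h1 : cj f z.swap = cj f w.swap := by simp [cj, hzw]
    have h2 := D.inj h1
    exact Prod.swap_injective h2
  · have h1 := D.per
    rw [cj_iterate, Prod.swap_swap] at h1
    exact Prod.swap_injective h1
  · have : (Prod.swap ⁻¹' K : Set (ℂ × ℂ)) = Prod.swap '' K := by
      rw [Set.image_swap_eq_preimage_swap]
    rw [this]
    exact D.cpt.image continuous_swap
  · exact D.openU.preimage continuous_swap
  · intro i
    have h1 := D.mem i
    rw [cj_iterate, Prod.swap_swap] at h1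
    exact h1
  · intro ν h1 h2
    have h3 := hinv ν h1 h2
    exact hae ν _ (D.supp _ h3.1 h3.2)
  · intro ν h1 h2
    have h3 := hinv ν h1 h2
    have h4 := hae ν _ (D.sink _ h3.1 h3.2)
    filter_upwards [h4] with z hz hzU
    have h5 := hz hzU
    rw [orb_cj] at h5
    simpa using h5
  · intro ν h1 h2
    have h3 := hinv ν h1 h2
    have h4 := D.bound _ h3.1 h3.2
    rwa [ksEntropy_map_swap] at h4

lemma eig_swap {F : ℂ × ℂ → ℂ × ℂ} {p : ℂ × ℂ} {c : ℂ}
    (hc : Module.End.HasEigenvalue (fderiv ℂ (cj F) p.swap : ℂ × ℂ →ₗ[ℂ] ℂ × ℂ) c) :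
    Module.End.HasEigenvalue (fderiv ℂ F p : ℂ × ℂ →ₗ[ℂ] ℂ × ℂ) c := by
  let S : (ℂ × ℂ) ≃L[ℂ] (ℂ × ℂ) := ContinuousLinearEquiv.prodComm ℂ ℂ ℂ
  have hS : ∀ z, S z = z.swap := fun z => rfl
  have h1 : cj F = S ∘ (F ∘ S) := by
    funext z
    simp [cj, hS]
  have h2 : fderiv ℂ (cj F) p.swap =
      (S : ℂ × ℂ →L[ℂ] ℂ × ℂ).comp ((fderiv ℂ F p).comp (S : ℂ × ℂ →L[ℂ] ℂ × ℂ)) := by
    rw [h1, S.comp_fderiv, S.comp_right_fderiv]
    rw [hS, Prod.swap_swap]
  rw [h2] at hc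
  obtain ⟨v, hv⟩ := hc.exists_hasEigenvector
  have h3 := hv.apply_eq_smul
  have h4 : (fderiv ℂ F p v.swap).swap = c • v := by
    simpa [hS] using h3
  have h5 : fderiv ℂ F p v.swap = c • v.swap := by
    have := congrArg Prod.swap h4
    rw [Prod.swap_swap] at this
    rw [this]
    rfl
  refine Module.End.hasEigenvalue_of_hasEigenvector (x := v.swap) ⟨?_, ?_⟩
  · rw [Module.End.mem_eigenspace_iff]
    exact h5
  · intro h
    apply hv.2
    have := congrArg Prod.swap h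
    rw [Prod.swap_swap] at this
    rw [this]
    rfl

lemma cj_iterate_fun (f : ℂ × ℂ → ℂ × ℂ) (n : ℕ) : (cj f)^[n] = cj (f^[n]) := by
  funext z
  rw [cj_iterate]
  rfl

lemma att_swap {f : ℂ × ℂ → ℂ × ℂ} {m : ℕ} {p : ℂ × ℂ} (h : Att f m p) :
    Att (cj f) m p.swap := by
  refine ⟨h.1, ?_, ?_⟩
  · rw [cj_iterate, Prod.swap_swap, h.2.1]
  · intro c hc
    rw [cj_iterate_fun] at hc
    exact h.2.2 c (eig_swap hc)

lemma rep_swap {f : ℂ × ℂ → ℂ × ℂ} {m : ℕ} {p : ℂ × ℂ} (h : Rep f m p) :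
    Rep (cj f) m p.swap := by
  refine ⟨h.1, ?_, ?_⟩
  · rw [cj_iterate, Prod.swap_swap, h.2.1]
  · intro c hc
    rw [cj_iterate_fun] at hc
    exact h.2.2 c (eig_swap hc)

end Pool.Agent.D0H35.Hen
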